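import Pool.Agent.Q82.MD.Stm

/-!
# Project MD: second derivatives, exterior derivatives and quasiconvexity from a heat certificate
-/

set_option autoImplicit false

namespace Pool.Agent.Q79.MD

open MeasureTheory Set Filter Topology
open Pool.Agent.W779.Morrey Pool.Agent.Q82.MD

section hess

variable {X Y : Type*} [NormedAddCommGroup X] [NormedSpace ℝ X]
  [NormedAddCommGroup Y] [NormedSpace ℝ Y]

theorem hs_comp {ψ : Y → ℝ} (hψ : ContDiff ℝ 2 ψ) (T : X →L[ℝ] Y) (F G H : X) :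
    hs (fun F => ψ (T F)) F G H = hs ψ (T F) (T G) (T H) := by
  have h1 : ∀ F, fderiv ℝ (fun F => ψ (T F)) F = (fderiv ℝ ψ (T F)).comp T := by
    intro F
    exact ((hψ.differentiable (by norm_num) (T F)).hasFDerivAt.comp F T.hasFDerivAt).fderiv
  have h2 : fderiv ℝ (fun F => ψ (T F)) = fun F => (fderiv ℝ ψ (T F)).comp T := funext h1
  unfold hs
  rw [h2]
  have hP : ContDiff ℝ 1 (fderiv ℝ ψ) := hψ.fderiv_right (by norm_num)
  have h3 : HasFDerivAt (fun F => fderiv ℝ ψ (T F)) ((fderiv ℝ (fderiv ℝ ψ) (T F)).comp T) F :=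
    (hP.differentiable (by norm_num) (T F)).hasFDerivAt.comp F T.hasFDerivAt
  have h4 := h3.clm_comp (hasFDerivAt_const T F)
  rw [h4.fderiv]
  simp

theorem fderiv_quad (B : X →L[ℝ] X →L[ℝ] ℝ) :
    fderiv ℝ (fun F => B F F) = fun F => (B + B.flip) F := by
  funext F
  have h : HasFDerivAt (fun F => B F F)
      ((B F).comp (ContinuousLinearMap.id ℝ X) + B.flip F) F :=
    B.hasFDerivAt.clm_apply (hasFDerivAt_id F)
  rw [h.fderiv]
  ext G
  simp

theorem hs_quad (B : X →L[ℝ] X →L[ℝ] ℝ) (F G H : X) :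
    hs (fun F => B F F) F G H = B G H + B H G := by
  unfold hs
  rw [fderiv_quad, (B + B.flip).fderiv]
  simp

theorem contDiff_quad (B : X →L[ℝ] X →L[ℝ] ℝ) (n : ℕ∞) : ContDiff ℝ n (fun F => B F F) :=
  B.contDiff.clm_apply contDiff_id

theorem hs_add {W₁ W₂ : X → ℝ} (h1 : ContDiff ℝ 2 W₁) (h2 : ContDiff ℝ 2 W₂) (F G H : X) :
    hs (fun F => W₁ F + W₂ F) F G H = hs W₁ F G H + hs W₂ F G H := by
  have e : fderiv ℝ (fun F => W₁ F + W₂ F) = fun F => fderiv ℝ W₁ F + fderiv ℝ W₂ F := by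
    funext F
    exact fderiv_fun_add (h1.differentiable (by norm_num) F) (h2.differentiable (by norm_num) F)
  have p1 : ContDiff ℝ 1 (fderiv ℝ W₁) := h1.fderiv_right (by norm_num)
  have p2 : ContDiff ℝ 1 (fderiv ℝ W₂) := h2.fderiv_right (by norm_num)
  unfold hs
  rw [e, fderiv_fun_add (p1.differentiable (by norm_num) F) (p2.differentiable (by norm_num) F)]
  simp

theorem hs_symm {ψ : X → ℝ} (hψ : ContDiff ℝ 2 ψ) (F G H : X) : hs ψ F G H = hs ψ F H G := by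
  have h : IsSymmSndFDerivAt ℝ ψ F := (hψ.contDiffAt).isSymmSndFDerivAt (by simp)
  exact h G H

theorem ed_comp {θ : Y → Y →L[ℝ] ℝ} (hθ : ContDiff ℝ 1 θ) (T : X →L[ℝ] Y) (F G H : X) :
    ed (fun F => (θ (T F)).comp T) F G H = ed θ (T F) (T G) (T H) := by
  have h3 : HasFDerivAt (fun F => θ (T F)) ((fderiv ℝ θ (T F)).comp T) F :=
    (hθ.differentiable (by norm_num) (T F)).hasFDerivAt.comp F T.hasFDerivAt
  have h4 := h3.clm_comp (hasFDerivAt_const T F)
  unfold ed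
  rw [h4.fderiv]
  simp

theorem contDiff_comp {θ : Y → Y →L[ℝ] ℝ} (hθ : ContDiff ℝ 1 θ) (T : X →L[ℝ] Y) :
    ContDiff ℝ 1 (fun F => (θ (T F)).comp T) :=
  (hθ.comp T.contDiff).clm_comp contDiff_const

theorem ed_add {θ₁ θ₂ : X → X →L[ℝ] ℝ} (h1 : ContDiff ℝ 1 θ₁) (h2 : ContDiff ℝ 1 θ₂)
    (F G H : X) : ed (fun F => θ₁ F + θ₂ F) F G H = ed θ₁ F G H + ed θ₂ F G H := by
  unfold ed
  rw [fderiv_fun_add (h1.differentiable (by norm_num) F) (h2.differentiable (by norm_num) F)]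
  simp
  ring

theorem ed_smul {θ : X → X →L[ℝ] ℝ} (h1 : ContDiff ℝ 1 θ) (c : ℝ)
    (F G H : X) : ed (fun F => c • θ F) F G H = c * ed θ F G H := by
  unfold ed
  rw [fderiv_fun_const_smul (h1.differentiable (by norm_num) F)]
  simp
  ring

theorem ed_clm (D : X →L[ℝ] X →L[ℝ] ℝ) (F G H : X) :
    ed (fun F => D F) F G H = D G H - D H G := by
  unfold ed
  rw [D.fderiv]

end hess

/-- quasiconvexity from a heat certificate -/
theorem qc_of_cert {W : Matrix (Fin 2) (Fin 2) ℝ → ℝ} {θ : E → E →L[ℝ] ℝ}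
    (hW : ContDiff ℝ 2 (fun F : E => W F)) (hθ : ContDiff ℝ 1 θ)
    (hcert : ∀ F G₀ G₁ : E, (∀ r, G₀ r 1 = G₁ r 0) →
      0 ≤ hs (fun F : E => W F) F G₀ G₀ + hs (fun F : E => W F) F G₁ G₁ + ed θ F G₀ G₁) :
    Quasiconvex W := by
  have hc : HeatCert (fun F : E => W F) θ := hcert
  have hq := QCtrig_of_cert hW hθ hc
  rintro F₀ Ω hΩ hb ϑ ⟨K, hK⟩ h0
  have h := qc_of_trig hW.continuous hq F₀ hΩ hb hK h0
  refine h.trans (le_of_eq ?_)
  refine integral_congr_ae (Filter.Eventually.of_forall fun x => ?_)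
  simp only
  rw [gr_eq_grad]
  rfl

/-- quasiconvexity from a heat certificate, second form -/
theorem qc_of_cert' {W : Matrix (Fin 2) (Fin 2) ℝ → ℝ} {W' : E → ℝ} {θ : E → E →L[ℝ] ℝ}
    (h : ∀ F : Matrix (Fin 2) (Fin 2) ℝ, W F = W' F)
    (hW : ContDiff ℝ 2 W') (hθ : ContDiff ℝ 1 θ)
    (hcert : ∀ F G₀ G₁ : E, (∀ r, G₀ r 1 = G₁ r 0) →
      0 ≤ hs W' F G₀ G₀ + hs W' F G₁ G₁ + ed θ F G₀ G₁) :
    Quasiconvex W := by
  have e : W = (W' : Matrix (Fin 2) (Fin 2) ℝ → ℝ) := funext h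
  rw [e]
  exact qc_of_cert (W := W') hW hθ hcert

/-- continuity of a bilinear form pulled back by linear maps -/
theorem continuous_pull {X Y Z : Type*} [NormedAddCommGroup X] [NormedSpace ℝ X]
    [NormedAddCommGroup Y] [NormedSpace ℝ Y] [TopologicalSpace Z] {Q : Z → Y →L[ℝ] Y →L[ℝ] ℝ}
    (hQ : Continuous Q) (T : X →L[ℝ] Y) : Continuous (fun z => (Q z).bilinearComp T T) := by
  have h1 : Continuous (fun z => (Q z).comp T) := hQ.clm_comp continuous_const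
  have h2 : Continuous (fun z => ((Q z).comp T).flip) :=
    (ContinuousLinearMap.flipₗᵢ ℝ X Y ℝ).continuous.comp h1
  have h3 : Continuous (fun z => (((Q z).comp T).flip).comp T) := h2.clm_comp continuous_const
  exact (ContinuousLinearMap.flipₗᵢ ℝ X X ℝ).continuous.comp h3

theorem continuous_hess {ψ : V → ℝ} (hψ : ContDiff ℝ 2 ψ) :
    Continuous (fun y => fderiv ℝ (fderiv ℝ ψ) y) := by
  have hP : ContDiff ℝ 1 (fderiv ℝ ψ) := hψ.fderiv_right (by norm_num)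
  exact hP.continuous_fderiv (by norm_num)

end Pool.Agent.Q79.MD
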