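import Pool.Agent.Q79.MD.Base

/-!
# Project MD (helper82), job MD-8: functions of the first column plus a quadratic form
-/

set_option autoImplicit false

namespace Pool.Agent.Q79.MD

open MeasureTheory Set Filter Topology
open Pool.Agent.W779.Morrey Pool.Agent.Q82.MD

/-- the entry `r l` -/
noncomputable def ent (r l : Fin 2) : E →L[ℝ] ℝ :=
  (ContinuousLinearMap.proj (R := ℝ) (φ := fun _ : Fin 2 => ℝ) l).comp
    (ContinuousLinearMap.proj (R := ℝ) (φ := fun _ : Fin 2 => V) r)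

@[simp] theorem ent_apply (r l : Fin 2) (F : E) : ent r l F = F r l := rfl

/-- the column `l` -/
noncomputable def col (l : Fin 2) : E →L[ℝ] V := ContinuousLinearMap.pi fun r => ent r l

@[simp] theorem col_apply (l : Fin 2) (F : E) (r : Fin 2) : col l F r = F r l := rfl

/-- multiplication of the second column by `τ` -/
noncomputable def sc (τ : ℝ) : E →L[ℝ] E :=
  ContinuousLinearMap.pi fun r => ContinuousLinearMap.pi fun l => (![1, τ] l) • ent r l

theorem sc_apply (τ : ℝ) (F : E) (r l : Fin 2) : sc τ F r l = ![1, τ] l * F r l := rfl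

/-- the scalar product of matrices -/
noncomputable def NN : E →L[ℝ] E →L[ℝ] ℝ :=
  (ent 0 0).smulRight (ent 0 0) + (ent 0 1).smulRight (ent 0 1) +
    (ent 1 0).smulRight (ent 1 0) + (ent 1 1).smulRight (ent 1 1)

theorem NN_apply (F G : E) :
    NN F G = F 0 0 * G 0 0 + F 0 1 * G 0 1 + F 1 0 * G 1 0 + F 1 1 * G 1 1 := by
  simp [NN]

theorem norm_sq_le_nn (F : E) : ‖F‖ ^ 2 ≤ nn F := by
  have h0 : 0 ≤ nn F := by unfold nn; positivity
  have h1 : ‖F‖ ≤ Real.sqrt (nn F) := by
    rw [pi_norm_le_iff_of_nonneg (Real.sqrt_nonneg _)]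
    intro r
    rw [pi_norm_le_iff_of_nonneg (Real.sqrt_nonneg _)]
    intro l
    rw [Real.norm_eq_abs]
    refine Real.abs_le_sqrt ?_
    unfold nn
    fin_cases r <;> fin_cases l <;> simp <;> nlinarith [sq_nonneg (F 0 0), sq_nonneg (F 0 1),
      sq_nonneg (F 1 0), sq_nonneg (F 1 1)]
  calc ‖F‖ ^ 2 ≤ Real.sqrt (nn F) ^ 2 := pow_le_pow_left₀ (norm_nonneg _) h1 2
    _ = nn F := Real.sq_sqrt h0

theorem exists_tens (F : E) (h : F 0 0 * F 1 1 - F 1 0 * F 0 1 = 0) :
    ∃ z ξ : V, F = tens z ξ := by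
  by_cases h0 : F 0 0 = 0
  · by_cases h1 : F 0 1 = 0
    · refine ⟨![0, 1], F 1, ?_⟩
      funext r l
      fin_cases r <;> fin_cases l <;> simp [tens, h0, h1]
    · have h2 : F 1 0 = 0 := by
        rw [h0, zero_mul, zero_sub, neg_eq_zero, mul_eq_zero] at h
        exact h.resolve_right h1
      refine ⟨![1, F 1 1 / F 0 1], F 0, ?_⟩
      funext r l
      fin_cases r <;> fin_cases l <;> simp [tens, h0, h2]
      field_simp
  · refine ⟨![1, F 1 0 / F 0 0], F 0, ?_⟩
    funext r l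
    fin_cases r <;> fin_cases l <;> simp [tens]
    · field_simp
    · field_simp
      linarith

theorem nn_tens (z ξ : V) : nn (tens z ξ) = dp z z * dp ξ ξ := by
  unfold nn tens dp
  ring

theorem ed_smul_right {θ : V → V →L[ℝ] ℝ} (y a b : V) (t : ℝ) :
    ed θ y a (t • b) = t * ed θ y a b := by
  unfold ed
  simp
  ring

theorem mul_diag (F : Matrix (Fin 2) (Fin 2) ℝ) (τ : ℝ) :
    F * Matrix.diagonal ![1, τ] = fun r l => ![1, τ] l * F r l := by
  funext r l
  rw [Matrix.mul_diagonal, mul_comm]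

theorem cs : S_FORM → S_LC → S_Cs := by
  intro hFORM hLC ψ B η hψ hB hη hyp
  set β : ℝ := ‖B‖ with hβ
  have hβ0 : 0 ≤ β := by
    rw [hβ]
    exact norm_nonneg B
  set τ : ℝ := 3 * (β + 1) / η with hτ
  have hτ0 : 0 < τ := by positivity
  have hτη : τ * η = 3 * (β + 1) := by
    rw [hτ]
    field_simp
  set R : Matrix (Fin 2) (Fin 2) ℝ := Matrix.diagonal ![1, τ] with hR
  have hdet : R.det ≠ 0 := by
    rw [hR, Matrix.det_diagonal]
    simp [hτ0.ne']
  refine hLC _ R hdet ?_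
  -- the exact form
  set G : V → E →L[ℝ] E →L[ℝ] ℝ := fun y =>
    (fderiv ℝ (fderiv ℝ ψ) y).bilinearComp (col 0) (col 0) + ((2 : ℝ) • B - (η / 2) • NN)
    with hG
  have hGapp : ∀ y X X', G y X X' = hs ψ y (col 0 X) (col 0 X') + (2 * B X X' -
      η / 2 * NN X X') := by
    intro y X X'
    rfl
  have hGc : Continuous G := (continuous_pull (continuous_hess hψ) (col 0)).add continuous_const
  have hNNs : ∀ F G : E, NN F G = NN G F := by
    intro F G
    rw [NN_apply, NN_apply]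
    ring
  obtain ⟨θ₀, hθ₀, hform⟩ := hFORM E G (col 0) (col 1) (η / 2) hGc
    (by
      intro y x x'
      rw [hGapp, hGapp, hs_symm hψ, hB x x', hNNs x x'])
    ⟨![![1, 0], ![0, 1]], by simp [wd]⟩
    ⟨![![0, 1], ![1, 0]], by simp [wd]⟩
    (by positivity)
    (by
      intro y x hx
      have hx' : x 0 0 * x 1 1 - x 1 0 * x 0 1 = 0 := hx
      obtain ⟨z, ξ, rfl⟩ := exists_tens x hx'
      rw [hGapp]
      have h1 := hyp y z ξ
      have e1 : col 0 (tens z ξ) = ξ 0 • z := by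
        funext r
        simp [tens, mul_comm]
      have e2 : NN (tens z ξ) (tens z ξ) = dp z z * dp ξ ξ := by
        rw [← nn_tens, NN_apply]
        unfold nn
        ring
      rw [e1, e2]
      have h2 := norm_sq_le_nn (tens z ξ)
      rw [nn_tens] at h2
      nlinarith)
  -- the certificate
  have hWc1 : ContDiff ℝ 2 (fun F : E => ψ (col 0 F)) := hψ.comp (col 0).contDiff
  have hWc2 : ContDiff ℝ 2 (fun F : E => (B.bilinearComp (sc τ) (sc τ)) F F) :=
    contDiff_quad _ 2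
  refine qc_of_cert' (W' := fun F : E => ψ (col 0 F) + (B.bilinearComp (sc τ) (sc τ)) F F)
    (θ := fun F => τ • (θ₀ (col 0 F)).comp (col 0)) ?_ ?_ ?_ ?_
  · intro F
    have e2 : (fun r => (F * R) r 0) = fun r => F r 0 := by
      funext r
      rw [hR, Matrix.mul_diagonal]
      simp
    change ψ (fun r => (F * R) r 0) + B (F * R) (F * R) = _
    rw [e2, hR, mul_diag F τ]
    rfl
  · exact hWc1.add hWc2
  · exact (contDiff_comp hθ₀ (col 0)).const_smul τ
  · intro F G₀ G₁ hsym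
    rw [hs_add hWc1 hWc2, hs_add hWc1 hWc2, hs_comp hψ, hs_comp hψ, hs_quad, hs_quad,
      ed_smul (contDiff_comp hθ₀ (col 0)), ed_comp hθ₀]
    simp only [ContinuousLinearMap.bilinearComp_apply]
    set v := col 0 F
    set g00 := col 0 G₀
    set g01 := col 0 G₁ with hg01
    set g11 := col 1 G₁ with hg11
    have h1 := hform v (sc τ G₀)
    have c0 : col 0 (sc τ G₀) = g00 := by
      funext r
      rw [col_apply, sc_apply]
      simp [g00]
    have c1 : col 1 (sc τ G₀) = τ • g01 := by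
      funext r
      rw [col_apply, sc_apply]
      simp [g01, hsym]
    rw [hGapp, c0, c1, ed_smul_right] at h1
    have hnn : τ ^ 2 * dp g01 g01 ≤ NN (sc τ G₀) (sc τ G₀) := by
      rw [NN_apply]
      simp only [sc_apply, Matrix.cons_val_zero, Matrix.cons_val_one, dp, hg01, col_apply, ← hsym]
      nlinarith [sq_nonneg (G₀ 0 0), sq_nonneg (G₀ 1 0)]
    -- the second derivative
    set P : E := tens g01 ![1, 0] with hP
    set Q : E := tens g11 ![0, 1] with hQ
    have hPQ : sc τ G₁ = P + τ • Q := by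
      funext r l
      rw [sc_apply]
      fin_cases r <;> fin_cases l <;> simp [hP, hQ, tens, g01, g11]
    have h2 := hyp v g01 ![1, 0]
    have h3 := hyp v g11 ![0, 1]
    rw [← hP] at h2
    rw [← hQ] at h3
    have d0 : dp (![1, 0] : V) ![1, 0] = 1 := by simp [dp]
    have d1 : dp (![0, 1] : V) ![0, 1] = 1 := by simp [dp]
    have z3 : hs ψ v ((![0, 1] : V) 0 • g11) ((![0, 1] : V) 0 • g11) = 0 := by
      simp [hs]
    have z2 : (![1, 0] : V) 0 • g01 = g01 := by simp
    rw [z2, d0, mul_one] at h2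
    rw [z3, d1, mul_one, zero_add] at h3
    set a := Real.sqrt (dp g01 g01) with ha
    set b := Real.sqrt (dp g11 g11) with hb
    have hdp0 : ∀ g : V, 0 ≤ dp g g := by
      intro g
      unfold dp
      nlinarith [mul_self_nonneg (g 0), mul_self_nonneg (g 1)]
    have ha0 : 0 ≤ a := Real.sqrt_nonneg _
    have hb0 : 0 ≤ b := Real.sqrt_nonneg _
    have ha2 : a ^ 2 = dp g01 g01 := Real.sq_sqrt (hdp0 _)
    have hb2 : b ^ 2 = dp g11 g11 := Real.sq_sqrt (hdp0 _)
    have hPn : ‖P‖ ≤ a := by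
      refine Real.le_sqrt_of_sq_le ?_
      have := norm_sq_le_nn P
      rw [hP, nn_tens, d0, mul_one] at this
      exact this
    have hQn : ‖Q‖ ≤ b := by
      refine Real.le_sqrt_of_sq_le ?_
      have := norm_sq_le_nn Q
      rw [hQ, nn_tens, d1, mul_one] at this
      exact this
    have hBPQ : |B P Q| ≤ β * a * b := by
      have h4 : ‖B P Q‖ ≤ ‖B‖ * ‖P‖ * ‖Q‖ := B.le_opNorm₂ P Q
      rw [Real.norm_eq_abs] at h4
      refine h4.trans ?_
      exact mul_le_mul (mul_le_mul_of_nonneg_left hPn hβ0) hQn (norm_nonneg _) (by positivity)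
    have hBPQ' := (abs_le.mp hBPQ).1
    have hexp : B (sc τ G₁) (sc τ G₁) = B P P + 2 * τ * B P Q + τ ^ 2 * B Q Q := by
      rw [hPQ]
      simp only [map_add, map_smul, _root_.add_apply, _root_.smul_apply, smul_eq_mul]
      rw [hB Q P]
      ring
    rw [hexp]
    rw [← ha2] at h2 hnn
    rw [← hb2] at h3
    have key : 0 ≤ η / 2 * (τ ^ 2 * a ^ 2) - 4 * τ * (β * a * b) + τ ^ 2 * (η * b ^ 2) := by
      have e5 : η / 2 * (τ ^ 2 * a ^ 2) - 4 * τ * (β * a * b) + τ ^ 2 * (η * b ^ 2) =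
          τ * ((τ * η) / 2 * a ^ 2 + (τ * η) * b ^ 2 - 4 * β * a * b) := by ring
      rw [e5, hτη]
      refine mul_nonneg hτ0.le ?_
      have k1 : 0 ≤ 3 / 2 * a ^ 2 + 3 * b ^ 2 - 4 * a * b := by nlinarith [sq_nonneg (3 * a - 4 * b)]
      have k2 := mul_nonneg hβ0 k1
      nlinarith [sq_nonneg a, sq_nonneg b]
    have k3 : 0 ≤ η * a ^ 2 := by positivity
    have k4 : 4 * τ * B P Q ≥ - (4 * τ * (β * a * b)) := by
      have := mul_le_mul_of_nonneg_left hBPQ' (by positivity : (0:ℝ) ≤ 4 * τ)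
      linarith
    have k5 : τ ^ 2 * (η * b ^ 2) ≤ τ ^ 2 * (2 * B Q Q) :=
      mul_le_mul_of_nonneg_left h3 (by positivity)
    have k6 : η / 2 * (τ ^ 2 * a ^ 2) ≤ η / 2 * NN (sc τ G₀) (sc τ G₀) :=
      mul_le_mul_of_nonneg_left hnn (by positivity)
    linarith

end Pool.Agent.Q79.MD
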