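import Pool.Agent.Q79.MD.RS

/-!
# Project MD (helper82), job MD-9: reduction to the normalized case
-/

set_option autoImplicit false

namespace Pool.Agent.Q79.MD

open MeasureTheory Set Filter Topology
open Pool.Agent.W779.Morrey Pool.Agent.Q82.MD

/-- multiplication of a row vector by the triangular matrix `(a, 0; b, d)` -/
noncomputable def rm (a b d : ℝ) : V →L[ℝ] V :=
  ContinuousLinearMap.pi ![a • ContinuousLinearMap.proj 0 + b • ContinuousLinearMap.proj 1,
    d • ContinuousLinearMap.proj 1]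

theorem rm_apply (a b d : ℝ) (y : V) : rm a b d y = ![a * y 0 + b * y 1, d * y 1] := by
  funext i
  fin_cases i <;> simp [rm]

/-- the same, for matrices -/
noncomputable def rmE (a b d : ℝ) : E →L[ℝ] E :=
  ContinuousLinearMap.pi fun i => (rm a b d).comp (row i)

theorem rmE_apply (a b d : ℝ) (F : E) (i : Fin 2) : rmE a b d F i = rm a b d (F i) := rfl

theorem mul_tri (F : Matrix (Fin 2) (Fin 2) ℝ) (a b d : ℝ) :
    F * !![a, 0; b, d] = fun i => rm a b d (F i) := by
  funext i l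
  rw [Matrix.mul_apply, Fin.sum_univ_two, rm_apply]
  fin_cases l <;> simp <;> ring

theorem rmE_tens (a b d : ℝ) (z ξ : V) : rmE a b d (tens z ξ) = tens z (rm a b d ξ) := by
  funext i
  rw [rmE_apply, rm_apply, rm_apply]
  funext l
  fin_cases l <;> simp [tens] <;> ring

theorem rmE_emb (a b d : ℝ) (y : V) : rmE a b d (emb 1 y) = emb 1 (rm a b d y) := by
  funext i
  rw [rmE_apply, emb_apply, emb_apply, map_smul]

theorem rs : S_FORM → S_LC → S_Rs := by
  intro hFORM hLC ψ B η hψ hB hη hyp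
  set p := B (emb 1 ![1, 0]) (emb 1 ![1, 0]) with hp
  set q := B (emb 1 ![1, 0]) (emb 1 ![0, 1]) with hq
  set r := B (emb 1 ![0, 1]) (emb 1 ![0, 1]) with hr
  have hC : ∀ y : V, B (emb 1 y) (emb 1 y) = p * y 0 ^ 2 + 2 * q * (y 0 * y 1) + r * y 1 ^ 2 :=
    fun y => B_bas1 B hB y
  have hpos : ∀ ξ : V, η * dp ξ ξ ≤ 2 * B (emb 1 ξ) (emb 1 ξ) := by
    intro ξ
    have h1 := hyp 0 ![0, 1] ξ
    have e1 : tens ![0, 1] ξ = emb 1 ξ := by
      rw [tens_eq]
      simp
    have e2 : hs ψ 0 ((![0, 1] : V) 0 • ξ) ((![0, 1] : V) 0 • ξ) = 0 := by simp [hs]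
    have e3 : dp (![0, 1] : V) ![0, 1] = 1 := by simp [dp]
    rw [e1, e2, e3, mul_one, zero_add] at h1
    exact h1
  have hp0 : 0 < p := by
    have h1 := hpos ![1, 0]
    have e3 : dp (![1, 0] : V) ![1, 0] = 1 := by simp [dp]
    rw [e3, ← hp] at h1
    linarith
  have hdet : 0 < p * r - q ^ 2 := by
    have h1 := hpos ![-q, p]
    rw [hC] at h1
    have e3 : dp (![-q, p] : V) ![-q, p] = q ^ 2 + p ^ 2 := by
      simp [dp]
      ring
    rw [e3] at h1
    simp only [Matrix.cons_val_zero, Matrix.cons_val_one] at h1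
    have h2 : 0 < 2 * (p * (-q) ^ 2 + 2 * q * (-q * p) + r * p ^ 2) := by
      have : 0 < η * (q ^ 2 + p ^ 2) := by positivity
      linarith
    have h3 : 2 * (p * (-q) ^ 2 + 2 * q * (-q * p) + r * p ^ 2) = (2 * p) * (p * r - q ^ 2) := by
      ring
    rw [h3] at h2
    exact (pos_iff_pos_of_mul_pos h2).mp (by positivity)
  have hD : 0 < r - q ^ 2 / p := by
    have : r - q ^ 2 / p = (p * r - q ^ 2) / p := by field_simp
    rw [this]
    positivity
  set a := Real.sqrt (1 / (2 * p)) with ha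
  set d := Real.sqrt (1 / (2 * (r - q ^ 2 / p))) with hd
  have ha0 : 0 < a := Real.sqrt_pos.mpr (by positivity)
  have hd0 : 0 < d := Real.sqrt_pos.mpr (by positivity)
  have ha2 : a ^ 2 = 1 / (2 * p) := Real.sq_sqrt (by positivity)
  have hd2 : d ^ 2 = 1 / (2 * (r - q ^ 2 / p)) := Real.sq_sqrt (by positivity)
  set b := -(d * q / p) with hb
  have hnorm : ∀ y : V, 2 * B (emb 1 (rm a b d y)) (emb 1 (rm a b d y)) = dp y y := by
    intro y
    rw [hC, rm_apply]
    simp only [Matrix.cons_val_zero, Matrix.cons_val_one]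
    have e1 : p * a ^ 2 = 1 / 2 := by
      rw [ha2]
      field_simp
    have e2 : d ^ 2 * (r - q ^ 2 / p) = 1 / 2 := by
      rw [hd2]
      have hne := hD.ne'
      generalize r - q ^ 2 / p = w at hne ⊢
      field_simp
    have e3 : p * b = -(d * q) := by
      rw [hb]
      field_simp
    have e4 : p * b ^ 2 = d ^ 2 * (q ^ 2 / p) := by
      rw [hb]
      field_simp
    unfold dp
    linear_combination (2 * y 0 ^ 2) * e1 + (4 * a * y 0 * y 1) * e3 + (2 * y 1 ^ 2) * e2 +
      (2 * y 1 ^ 2) * e4 + (4 * q * d * y 1 ^ 2) * hb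
  have hdet' : (!![a, 0; b, d] : Matrix (Fin 2) (Fin 2) ℝ).det ≠ 0 := by
    rw [Matrix.det_fin_two_of]
    have : 0 < a * d := by positivity
    intro h
    simp at h
    rcases h with h | h
    · exact ha0.ne' h
    · exact hd0.ne' h
  refine hLC _ _ hdet' ?_
  set β := ‖B‖ with hβ
  have hβ0 : 0 ≤ β := by
    rw [hβ]
    exact norm_nonneg B
  have hlow : ∀ ξ : V, 1 / (2 * β + 1) * dp ξ ξ ≤ dp (rm a b d ξ) (rm a b d ξ) := by
    intro ξ
    have h1 := hnorm ξ
    have h2 : B (emb 1 (rm a b d ξ)) (emb 1 (rm a b d ξ)) ≤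
        β * dp (rm a b d ξ) (rm a b d ξ) := by
      calc B (emb 1 (rm a b d ξ)) (emb 1 (rm a b d ξ)) ≤
            ‖B (emb 1 (rm a b d ξ)) (emb 1 (rm a b d ξ))‖ := le_abs_self _
        _ ≤ ‖B‖ * ‖emb 1 (rm a b d ξ)‖ * ‖emb 1 (rm a b d ξ)‖ := B.le_opNorm₂ _ _
        _ = β * ‖emb 1 (rm a b d ξ)‖ ^ 2 := by rw [hβ]; ring
        _ ≤ β * dp (rm a b d ξ) (rm a b d ξ) := by
            refine mul_le_mul_of_nonneg_left ?_ hβ0
            rw [← nn_emb_one]
            exact norm_sq_le_nn _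
    have h3 : 0 ≤ dp (rm a b d ξ) (rm a b d ξ) := by
      unfold dp
      nlinarith [mul_self_nonneg (rm a b d ξ 0), mul_self_nonneg (rm a b d ξ 1)]
    rw [one_div, inv_mul_le_iff₀ (by positivity)]
    nlinarith
  have hψ' : ContDiff ℝ 2 (fun y : V => ψ (rm a b d y)) := hψ.comp (rm a b d).contDiff
  have h := rsn hFORM (fun y => ψ (rm a b d y)) (B.bilinearComp (rmE a b d) (rmE a b d))
    (η * (1 / (2 * β + 1))) hψ' (fun F G => hB _ _) (by positivity)
    (by
      intro y z ξ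
      have h1 := hyp (rm a b d y) z (rm a b d ξ)
      rw [hs_comp hψ]
      have e1 : (B.bilinearComp (rmE a b d) (rmE a b d)) (tens z ξ) (tens z ξ) =
          B (tens z (rm a b d ξ)) (tens z (rm a b d ξ)) := by
        rw [ContinuousLinearMap.bilinearComp_apply, rmE_tens]
      rw [e1, map_smul]
      refine le_trans ?_ h1
      have h2 := hlow ξ
      have h3 : 0 ≤ dp z z := by
        unfold dp
        nlinarith [mul_self_nonneg (z 0), mul_self_nonneg (z 1)]
      calc η * (1 / (2 * β + 1)) * dp z z * dp ξ ξ =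
            (η * dp z z) * (1 / (2 * β + 1) * dp ξ ξ) := by ring
        _ ≤ (η * dp z z) * dp (rm a b d ξ) (rm a b d ξ) :=
            mul_le_mul_of_nonneg_left h2 (by positivity))
    (by
      intro y
      rw [ContinuousLinearMap.bilinearComp_apply, rmE_emb]
      exact hnorm y)
  have e : (fun F : Matrix (Fin 2) (Fin 2) ℝ => (fun F : Matrix (Fin 2) (Fin 2) ℝ =>
      ψ (F 0) + B F F) (F * !![a, 0; b, d])) = fun F : Matrix (Fin 2) (Fin 2) ℝ =>
      ψ (rm a b d (F 0)) + (B.bilinearComp (rmE a b d) (rmE a b d)) F F := by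
    funext F
    change ψ ((F * !![a, 0; b, d]) 0) + B (F * !![a, 0; b, d]) (F * !![a, 0; b, d]) = _
    rw [mul_tri]
    rfl
  rw [e]
  exact h

end Pool.Agent.Q79.MD
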